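/-
Project PC (helper49, helper82): common neighbours in the random graph, and random sets of vertices.
-/
import Pool.Agent.H49.RG.Reg
import Pool.Agent.H82.RG.Marg

set_option autoImplicit false
set_option linter.unusedSectionVars false

open Finset

namespace Pool.Agent.H49.PC

open Pool.Agent.H9.KR Pool.Agent.H49.RG

variable {N : ℕ}

open Classical in
/-- The common neighbours of a set of vertices. -/
noncomputable def cnb (G : SimpleGraph (Fin N)) (W : Finset (Fin N)) : Finset (Fin N) :=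
  univ.filter fun v => ∀ w ∈ W, G.Adj v w

theorem mem_cnb {G : SimpleGraph (Fin N)} {W : Finset (Fin N)} {v : Fin N} :
    v ∈ cnb G W ↔ ∀ w ∈ W, G.Adj v w := by
  simp [cnb]

/-- In the random graph every small set of vertices has many common neighbours. -/
theorem cnb_pr (p : unitInterval) (t : ℕ) (y : ℝ) (hy : y ≤ (p : ℝ) ^ t * (N - t) / 2) (ht : t ≤ N) :
    (SimpleGraph.binomialRandom (Fin N) p).real
      {G | ∃ W : Finset (Fin N), W.card ≤ t ∧ ((cnb G W).card : ℝ) ≤ y} ≤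
      ((N : ℝ) + 1) ^ t * Real.exp (-((p : ℝ) ^ t * (N - t) / 8)) := by
  classical
  have h := rsub_gnp (V := Fin N) p
  have hw := h.nonneg
  rw [real_eq_pr p]
  have h1 := pr_exists_le_card hw (univ.filter fun S : Finset (Fin N) => S.card ≤ t)
      (fun S G => ((cnb G S).card : ℝ) ≤ y)
      (Real.exp (-((p : ℝ) ^ t * (N - t) / 8))) fun S hS => ?_
  · refine (pr_mono hw ?_).trans (h1.trans (mul_le_mul_of_nonneg_right (Reg_sets t) (by positivity)))
    rintro G ⟨S, h2, h3⟩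
    exact ⟨S, mem_filter.2 ⟨mem_univ _, h2⟩, h3⟩
  · have hSt : S.card ≤ t := (mem_filter.1 hS).2
    have hSN : (S.card : ℝ) ≤ t := Nat.cast_le.2 hSt
    have hps : (p : ℝ) ^ t ≤ (p : ℝ) ^ S.card := pow_le_pow_of_le_one p.2.1 p.2.2 hSt
    have hpt : 0 ≤ (p : ℝ) ^ t := pow_nonneg p.2.1 _
    have hU : (((univ : Finset (Fin N)) \ S).card : ℝ) = N - S.card := by
      rw [card_univ_sdiff, Fintype.card_fin, Nat.cast_sub (hSt.trans ht)]
    have htN : (t : ℝ) ≤ N := Nat.cast_le.2 ht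
    have h2 : (p : ℝ) ^ t * (N - t) ≤ (p : ℝ) ^ S.card * (N - S.card) :=
      mul_le_mul hps (by linarith) (by linarith) (hpt.trans hps)
    have e1 := Pool.Agent.H82.RG.cn_lower h p.2.1 p.2.2 ((univ : Finset (Fin N)) \ S) S sdiff_disjoint
      (fun u hu v hv => mem_pairs.2 fun h' => (mem_sdiff.1 hu).2 (h' ▸ hv)) y (by rw [hU]; linarith)
    refine (pr_mono hw ?_).trans (e1.trans (Real.exp_le_exp.2 (by rw [hU]; linarith)))
    intro G hG
    have h8 : ∀ (inst : DecidablePred fun u => ∀ v ∈ S, s(u, v) ∈ ed G),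
        (@Finset.filter _ (fun u => ∀ v ∈ S, s(u, v) ∈ ed G) inst (univ \ S)).card ≤ (cnb G S).card := by
      intro inst
      refine card_le_card fun u hu => ?_
      rw [mem_cnb]
      intro v hv
      exact mem_ed.1 ((mem_filter.1 hu).2 v hv)
    exact (Nat.cast_le.2 (h8 _)).trans hG

/-- A random set of vertices kills all wide sets and keeps common neighbours. -/
theorem exists_sub (G : SimpleGraph (Fin N)) (t m e : ℕ) (q : ℝ) (hq0 : 0 ≤ q) (hq1 : q ≤ 1)
    (hG : ∀ W : Finset (Fin N), W.card ≤ t → m ≤ (cnb G W).card) (𝒮 : Finset (Finset (Fin N)))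
    (hS : ∀ S ∈ 𝒮, e ≤ S.card)
    (hlt : (𝒮.card : ℝ) * q ^ e + ((N : ℝ) + 1) ^ t * (1 - q) ^ m < 1) :
    ∃ B : Finset (Fin N), (∀ S ∈ 𝒮, ¬ S ⊆ B) ∧
      ∀ W : Finset (Fin N), W.card ≤ t → ∃ v ∈ B, ∀ w ∈ W, G.Adj v w := by
  classical
  have h := rsub_bernoulli (E := Fin N) q hq0 hq1
  have hw := h.nonneg
  have h1 := pr_exists_le_card hw 𝒮 (fun S B => S ⊆ B) (q ^ e) fun S hS' => by
    rw [h.hit S (subset_univ S)]
    exact pow_le_pow_of_le_one hq0 hq1 (hS S hS')
  have h2 := pr_exists_le_card hw (univ.filter fun S : Finset (Fin N) => S.card ≤ t)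
      (fun S B => Disjoint (cnb G S) B) ((1 - q) ^ m) fun S hS' => by
    have h3 := Pool.Agent.H82.RG.rsub_law0 h (cnb G S) ∅ (empty_subset _) (subset_univ _)
      (disjoint_empty_left _)
    rw [card_empty, pow_zero, one_mul] at h3
    refine (pr_mono hw fun B hB => ?_).trans (h3.le.trans
      (pow_le_pow_of_le_one (by linarith) (by linarith) (hG S (mem_filter.1 hS').2)))
    exact ⟨empty_subset _, hB⟩
  have h3 : pr (fun S : Finset (Fin N) => q ^ S.card * (1 - q) ^ (univ \ S).card)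
      (fun B => (∃ S ∈ 𝒮, S ⊆ B) ∨ ∃ W ∈ univ.filter (fun S : Finset (Fin N) => S.card ≤ t),
        Disjoint (cnb G W) B) < 1 := by
    refine lt_of_le_of_lt ((pr_or_le hw _ _).trans (add_le_add h1 (h2.trans
      (mul_le_mul_of_nonneg_right (Reg_sets t) (pow_nonneg (by linarith) _))))) hlt
  obtain ⟨B, hB⟩ := h.exists_not _ h3
  push Not at hB
  refine ⟨B, hB.1, fun W hW => ?_⟩
  have h4 := hB.2 W (mem_filter.2 ⟨mem_univ _, hW⟩)
  rw [not_disjoint_iff] at h4
  obtain ⟨v, hv, hvB⟩ := h4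
  exact ⟨v, hvB, mem_cnb.1 hv⟩

end Pool.Agent.H49.PC
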