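/-
Project PC (helper49, helper82): from degree to size, and the theorem for random graphs, from the degree bound.
-/
import Pool.Agent.H49.PC.Rn0
import Pool.Agent.H82.PC.Defs

set_option autoImplicit false
set_option linter.unusedSectionVars false

open Finset

namespace Pool.Agent.H49.PC

open Pool.Agent.H82.PC

/-- The degree bound: if any `2 d` vertices in `B` have a common neighbour in `B` then every refutation contains a monomial
which is a clique set in `B` with more than `d` elements. -/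
def DegBound : Prop :=
  ∀ (F : Type) [Field F] (N k S d : ℕ) (G : SimpleGraph (Fin N)) (B : Finset (Fin N)), 1 ≤ d →
    (∀ W ⊆ B, W.card ≤ 2 * d → ∃ v ∈ B, ∀ w ∈ W, G.Adj v w) →
    ∀ P : Fin S → MvPolynomial (Fin k × Fin N) F, PCRefutation G k S P →
      ∃ s, ∃ m ∈ (P s).support, d < m.support.card ∧ Cl G B m.support

variable {N : ℕ}

theorem mem_monomials {σ F : Type} [Field F] {S : ℕ} {P : Fin S → MvPolynomial σ F} {m : σ →₀ ℕ} :
    m ∈ monomials P ↔ ∃ s, m ∈ (P s).support := by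
  classical
  unfold monomials
  rw [mem_biUnion]
  simp

theorem size_bound (hD : DegBound) {F : Type} [Field F] {k S d m : ℕ} {G : SimpleGraph (Fin N)} (hd : 1 ≤ d) (q : ℝ) (hq0 : 0 ≤ q)
    (hq1 : q ≤ 1) (hG : ∀ W : Finset (Fin N), W.card ≤ 2 * d → m ≤ (cnb G W).card)
    {P : Fin S → MvPolynomial (Fin k × Fin N) F} (hP : PCRefutation G k S P) :
    1 ≤ ((monomials P).card : ℝ) * q ^ (d + 1) + ((N : ℝ) + 1) ^ (2 * d) * (1 - q) ^ m := by
  classical
  by_contra hlt
  rw [not_le] at hlt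
  set 𝒮 : Finset (Finset (Fin N)) := ((monomials P).filter fun m => d < m.support.card ∧ Cl G univ m.support).image
    fun m => m.support.image Prod.snd with hS
  have hcard : (𝒮.card : ℝ) ≤ (monomials P).card :=
    Nat.cast_le.2 (card_image_le.trans (card_filter_le _ _))
  have h1 : ∀ T ∈ 𝒮, d + 1 ≤ T.card := by
    intro T hT
    obtain ⟨m', hm', rfl⟩ := mem_image.1 hT
    obtain ⟨_, h2, h3⟩ := mem_filter.1 hm'
    rw [card_image_of_injOn]
    · exact h2
    · intro x hx y hy hxy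
      by_contra hne
      exact (h3.2 x hx y hy hne).2.ne hxy
  obtain ⟨B, hB1, hB2⟩ := exists_sub G (2 * d) m (d + 1) q hq0 hq1 hG 𝒮 h1
    (lt_of_le_of_lt (add_le_add_left (mul_le_mul_of_nonneg_right hcard (pow_nonneg hq0 _)) _) hlt)
  obtain ⟨s, m', hm', h2, h3⟩ := hD F N k S d G B hd (fun W _ hW => hB2 W hW) P hP
  refine hB1 (m'.support.image Prod.snd) (mem_image.2 ⟨m', mem_filter.2 ⟨mem_monomials.2 ⟨s, hm'⟩, h2,
    fun x _ => mem_univ _, h3.2⟩, rfl⟩) fun v hv => ?_
  obtain ⟨x, hx, rfl⟩ := mem_image.1 hv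
  exact h3.1 x hx

theorem degree_bound (hD : DegBound) {F : Type} [Field F] {k S d m : ℕ} {G : SimpleGraph (Fin N)} (hd : 1 ≤ d) (hm : 1 ≤ m)
    (hG : ∀ W : Finset (Fin N), W.card ≤ 2 * d → m ≤ (cnb G W).card)
    {P : Fin S → MvPolynomial (Fin k × Fin N) F} (hP : PCRefutation G k S P) : ∃ t, d < (P t).totalDegree := by
  obtain ⟨s, m', hm', h2, _⟩ := hD F N k S d G univ hd (fun W _ hW => by
    obtain ⟨v, hv⟩ := card_pos.1 (lt_of_lt_of_le hm (hG W hW))
    exact ⟨v, mem_univ _, mem_cnb.1 hv⟩) P hP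
  refine ⟨s, lt_of_lt_of_le h2 (le_trans ?_ (MvPolynomial.le_totalDegree hm'))⟩
  unfold Finsupp.sum
  rw [card_eq_sum_ones]
  exact sum_le_sum fun x hx => Nat.one_le_iff_ne_zero.2 (Finsupp.mem_support_iff.1 hx)

end Pool.Agent.H49.PC
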