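/-
Project PC (helper49, helper82): the theorem for random graphs from the degree bound.
-/
import Pool.Agent.H49.PC.Sz

set_option autoImplicit false
set_option linter.unusedSectionVars false

open Finset

namespace Pool.Agent.H49.PC

open Pool.Agent.H82.PC

/-- The number `N ^ (1 / 16)`. -/
noncomputable def ra (N : ℕ) : ℝ := (N : ℝ) ^ ((1 : ℝ) / 16)

theorem ra_pow (N : ℕ) : ra N ^ 16 = N := by
  unfold ra
  rw [← Real.rpow_natCast, ← Real.rpow_mul (Nat.cast_nonneg _)]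
  norm_num

theorem ra_nonneg (N : ℕ) : 0 ≤ ra N := Real.rpow_nonneg (Nat.cast_nonneg _) _

theorem ra_s {s N : ℕ} (h : (64 * s) ^ 64 ≤ N) : (64 * (s : ℝ)) ^ 4 ≤ ra N := by
  have h1 : ((64 * (s : ℝ)) ^ 4) ^ 16 ≤ ra N ^ 16 := by
    rw [ra_pow, ← pow_mul]
    exact_mod_cast h
  exact le_of_pow_le_pow_left₀ (by norm_num) (ra_nonneg N) h1

theorem ra_big {s N : ℕ} (hs : 1 ≤ s) (h : (64 * s) ^ 64 ≤ N) : 2 ^ 24 ≤ ra N := by
  refine le_trans ?_ (ra_s h)
  have h1 : (1 : ℝ) ≤ s := Nat.one_le_cast.2 hs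
  calc (2 : ℝ) ^ 24 = (64 * 1) ^ 4 := by norm_num
    _ ≤ _ := pow_le_pow_left₀ (by norm_num) (by linarith) 4

theorem ra_s1 {s N : ℕ} (hs : 1 ≤ s) (h : (64 * s) ^ 64 ≤ N) : 64 * (s : ℝ) ≤ ra N := by
  refine le_trans ?_ (ra_s h)
  have h1 : (1 : ℝ) ≤ s := Nat.one_le_cast.2 hs
  exact le_self_pow₀ (by linarith) (by norm_num)

theorem exp_N (N : ℕ) : (N : ℝ) ≤ Real.exp (16 * (ra N - 1)) := by
  have h1 : Real.exp (16 * (ra N - 1)) = Real.exp (ra N - 1) ^ 16 := by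
    rw [← Real.exp_nat_mul]
    norm_num
  rw [h1, ← ra_pow N]
  have h2 : ra N ≤ Real.exp (ra N - 1) := by linarith [Real.add_one_le_exp (ra N - 1)]
  rw [ra_pow N]
  calc (N : ℝ) = ra N ^ 16 := (ra_pow N).symm
    _ ≤ _ := pow_le_pow_left₀ (ra_nonneg N) h2 16

theorem exp_N1 {N : ℕ} (hN : 1 ≤ N) : (N : ℝ) + 1 ≤ Real.exp (16 * ra N) := by
  have h1 := exp_N N
  have h2 : (1 : ℝ) ≤ N := Nat.one_le_cast.2 hN
  have h3 : Real.exp (16 * ra N) = Real.exp (16 * (ra N - 1)) * Real.exp 16 := by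
    rw [← Real.exp_add]; congr 1; ring
  have h4 : (2 : ℝ) ≤ Real.exp 16 := by linarith [Real.add_one_le_exp (16 : ℝ)]
  rw [h3]
  nlinarith [Real.exp_pos (16 * (ra N - 1))]

/-- Few sets of vertices. -/
theorem sets_le {s N : ℕ} (hs : 1 ≤ s) (h : (64 * s) ^ 64 ≤ N) :
    ((N : ℝ) + 1) ^ (2 * (2 * s)) ≤ Real.exp (ra N ^ 2) := by
  have hN : 1 ≤ N := le_trans (Nat.one_le_pow _ _ (by omega)) h
  calc ((N : ℝ) + 1) ^ (2 * (2 * s)) ≤ Real.exp (16 * ra N) ^ (2 * (2 * s)) :=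
        pow_le_pow_left₀ (by positivity) (exp_N1 hN) _
    _ = Real.exp (64 * s * ra N) := by
        rw [← Real.exp_nat_mul]
        congr 1
        push_cast
        ring
    _ ≤ _ := by
        rw [Real.exp_le_exp]
        have h1 := ra_s1 hs h
        nlinarith [ra_nonneg N]

theorem p_pow {s N : ℕ} (hs : 1 ≤ s) (h : (64 * s) ^ 64 ≤ N) {p : ℝ}
    (hp : (N : ℝ) ^ (-(1 : ℝ) / (64 * s)) ≤ p) : 1 / ra N ≤ p ^ (2 * (2 * s)) := by
  have hN : 1 ≤ N := le_trans (Nat.one_le_pow _ _ (by omega)) h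
  have hs' : (0 : ℝ) < s := Nat.cast_pos.2 hs
  calc 1 / ra N = ((N : ℝ) ^ (-(1 : ℝ) / (64 * s))) ^ (2 * (2 * s)) := by
        unfold ra
        rw [one_div, ← Real.rpow_neg (Nat.cast_nonneg _), ← Real.rpow_natCast,
          ← Real.rpow_mul (Nat.cast_nonneg _)]
        congr 1
        push_cast
        field_simp
        norm_num
    _ ≤ _ := pow_le_pow_left₀ (Real.rpow_nonneg (Nat.cast_nonneg _) _) hp _

theorem half_N {s N : ℕ} (hs : 1 ≤ s) (h : (64 * s) ^ 64 ≤ N) : (2 * (2 * s) : ℝ) ≤ ra N ^ 16 / 2 := by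
  have h1 := ra_s1 hs h
  have h2 := ra_big hs h
  have h3 : (1 : ℝ) ≤ ra N := by linarith
  have h4 : ra N * ra N ≤ ra N ^ 16 := by
    rw [← pow_two]
    exact pow_le_pow_right₀ h3 (by norm_num)
  nlinarith

/-- The event that all sets of `4 s` vertices have many common neighbours. -/
theorem good_pr {s N : ℕ} (hs : 1 ≤ s) (h : (64 * s) ^ 64 ≤ N) (p : unitInterval)
    (hp : (N : ℝ) ^ (-(1 : ℝ) / (64 * s)) ≤ p) :
    (SimpleGraph.binomialRandom (Fin N) p).real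
      {G | ∃ W : Finset (Fin N), W.card ≤ 2 * (2 * s) ∧ ((cnb G W).card : ℝ) ≤ ra N ^ 15 / 4} ≤ 1 / N := by
  have hN : 1 ≤ N := le_trans (Nat.one_le_pow _ _ (by omega)) h
  have h1 := p_pow hs h hp
  have h2 := half_N hs h
  have h3 := ra_big hs h
  have ha : 0 < ra N := by linarith
  have h5 : ra N ^ 15 / 2 ≤ (p : ℝ) ^ (2 * (2 * s)) * (N - ((2 * (2 * s) : ℕ) : ℝ)) := by
    have h6 : ra N ^ 15 / 2 = 1 / ra N * (ra N ^ 16 / 2) := by
      field_simp
    rw [h6]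
    refine mul_le_mul h1 ?_ (by positivity) (pow_nonneg p.2.1 _)
    rw [← ra_pow N]
    push_cast
    linarith
  have h7 : 2 * (2 * s) ≤ N := by
    have h8 : ((2 * (2 * s) : ℕ) : ℝ) ≤ N := by
      rw [← ra_pow N]
      push_cast
      have : 0 ≤ ra N ^ 16 := by positivity
      linarith
    exact_mod_cast h8
  refine (cnb_pr p (2 * (2 * s)) (ra N ^ 15 / 4) (by linarith) h7).trans ?_
  have h9 : Real.exp (-((p : ℝ) ^ (2 * (2 * s)) * (N - ((2 * (2 * s) : ℕ) : ℝ)) / 8)) ≤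
      Real.exp (-(ra N ^ 15 / 16)) := Real.exp_le_exp.2 (by linarith)
  refine (mul_le_mul (sets_le hs h) h9 (Real.exp_nonneg _) (Real.exp_nonneg _)).trans ?_
  rw [← Real.exp_add, one_div]
  have h10 := exp_N N
  have hNp : (0 : ℝ) < N := Nat.cast_pos.2 hN
  refine le_trans ?_ (inv_anti₀ hNp h10)
  rw [← Real.exp_neg, Real.exp_le_exp]
  have h11 : ra N ^ 15 = ra N ^ 2 * ra N ^ 13 := by ring
  have h12 : (2 : ℝ) ^ 24 ≤ ra N ^ 13 := h3.trans (le_self_pow₀ (by linarith) (by norm_num))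
  have h13 : ra N ≤ ra N ^ 2 := le_self_pow₀ (by linarith) (by norm_num)
  nlinarith

/-- The theorem for random graphs. -/
theorem main_of (hD : DegBound) : ∃ C : ℕ, 1 ≤ C ∧ ∀ (s N : ℕ) (p : unitInterval), 1 ≤ s → (C * s) ^ C ≤ N →
    (N : ℝ) ^ (-(1 : ℝ) / (C * s)) ≤ p →
    (SimpleGraph.binomialRandom (Fin N) p).real
      {G | ∃ (F : Type) (_ : Field F) (k S : ℕ) (P : Fin S → MvPolynomial (Fin k × Fin N) F),
        PCRefutation G k S P ∧ ((monomials P).card < N ^ s ∨ ∀ t, (P t).totalDegree ≤ s)} ≤ 1 / N := by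
  refine ⟨64, by norm_num, fun s N p hs h hp => ?_⟩
  refine le_trans (MeasureTheory.measureReal_mono ?_ (MeasureTheory.measure_ne_top _ _)) (good_pr hs h p (by exact_mod_cast hp))
  rintro G ⟨F, _, k, S, P, hP, hsmall⟩
  by_contra hG
  simp only [Set.mem_ofPred_eq] at hG
  push Not at hG
  have h3 := ra_big hs h
  have ha : 0 < ra N := by linarith
  have hN : 1 ≤ N := le_trans (Nat.one_le_pow _ _ (by omega)) h
  set m : ℕ := ⌊ra N ^ 15 / 4⌋₊ with hm
  have hm1 : ra N ^ 15 / 4 - 1 ≤ m := by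
    have := Nat.lt_floor_add_one (ra N ^ 15 / 4)
    linarith
  have h15 : (2 : ℝ) ^ 24 ≤ ra N ^ 15 := h3.trans (le_self_pow₀ (by linarith) (by norm_num))
  have hm2 : 1 ≤ m := by
    have h4 : (1 : ℝ) ≤ m := by linarith
    exact_mod_cast h4
  have hG' : ∀ W : Finset (Fin N), W.card ≤ 2 * (2 * s) → m ≤ (cnb G W).card := by
    intro W hW
    have h4 : (m : ℝ) ≤ (cnb G W).card := (Nat.floor_le (by positivity)).trans (hG W hW).le
    exact_mod_cast h4
  rcases hsmall with h5 | h5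
  · have hq0 : 0 ≤ (ra N ^ 8)⁻¹ := by positivity
    have hq8 : (1 : ℝ) ≤ ra N ^ 8 := one_le_pow₀ (by linarith)
    have hq1 : (ra N ^ 8)⁻¹ ≤ 1 := inv_le_one_of_one_le₀ hq8
    have h6 := size_bound hD (by omega) (ra N ^ 8)⁻¹ hq0 hq1 hG' hP
    have h7 : ((monomials P).card : ℝ) * (ra N ^ 8)⁻¹ ^ (2 * s + 1) ≤ 1 / 4 := by
      have h8 : ((monomials P).card : ℝ) ≤ (N : ℝ) ^ s := by exact_mod_cast h5.le
      have h9 : (N : ℝ) ^ s * (ra N ^ 8)⁻¹ ^ (2 * s + 1) = (ra N ^ 8)⁻¹ := by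
        rw [← ra_pow N]
        have h10 : (ra N ^ 16) ^ s = (ra N ^ 8) ^ (2 * s) := by
          rw [← pow_mul, ← pow_mul]
          congr 1
          ring
        have hx : (ra N ^ 8) ^ (2 * s) ≠ 0 := by positivity
        rw [h10, pow_succ (ra N ^ 8)⁻¹, inv_pow (ra N ^ 8) (2 * s), ← mul_assoc, mul_inv_cancel₀ hx, one_mul]
      refine (mul_le_mul_of_nonneg_right h8 (by positivity)).trans (h9.le.trans ?_)
      rw [inv_le_comm₀ (by positivity) (by norm_num)]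
      have h11 : (2 : ℝ) ^ 24 ≤ ra N ^ 8 := h3.trans (le_self_pow₀ (by linarith) (by norm_num))
      norm_num at h11 ⊢
      linarith
    have h12 : ((N : ℝ) + 1) ^ (2 * (2 * s)) * (1 - (ra N ^ 8)⁻¹) ^ m ≤ 1 / 2 := by
      have h13 : (1 - (ra N ^ 8)⁻¹) ^ m ≤ Real.exp (-((ra N ^ 8)⁻¹ * m)) := by
        have h14 : 1 - (ra N ^ 8)⁻¹ ≤ Real.exp (-(ra N ^ 8)⁻¹) := by
          linarith [Real.add_one_le_exp (-(ra N ^ 8)⁻¹)]
        refine (pow_le_pow_left₀ (by linarith) h14 m).trans (le_of_eq ?_)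
        rw [← Real.exp_nat_mul]
        congr 1
        ring
      refine (mul_le_mul (sets_le hs h) h13 (pow_nonneg (by linarith) _) (Real.exp_nonneg _)).trans ?_
      rw [← Real.exp_add]
      have h16 : ra N ^ 7 / 8 ≤ (ra N ^ 8)⁻¹ * m := by
        have h17 : ra N ^ 15 / 8 ≤ m := by linarith
        have h18 : ra N ^ 7 / 8 = (ra N ^ 8)⁻¹ * (ra N ^ 15 / 8) := by
          field_simp
        rw [h18]
        exact mul_le_mul_of_nonneg_left h17 (by positivity)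
      have h19 : 2 ^ 24 * ra N ^ 2 ≤ ra N ^ 7 := by
        have h20 : ra N ^ 7 = ra N ^ 5 * ra N ^ 2 := by ring
        rw [h20]
        exact mul_le_mul_of_nonneg_right (h3.trans (le_self_pow₀ (by linarith) (by norm_num))) (by positivity)
      have h21 : (1 : ℝ) ≤ ra N ^ 2 := one_le_pow₀ (by linarith)
      have h22 : ra N ^ 2 + -((ra N ^ 8)⁻¹ * m) ≤ -1 := by nlinarith
      refine (Real.exp_le_exp.2 h22).trans ?_
      rw [Real.exp_neg, inv_le_comm₀ (Real.exp_pos _) (by norm_num)]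
      linarith [Real.add_one_le_exp (1 : ℝ)]
    linarith
  · obtain ⟨t, ht⟩ := degree_bound hD (by omega) hm2 hG' hP
    have := h5 t
    omega

end Pool.Agent.H49.PC
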