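/-
Project PC (helper49, helper82): the final theorem.
-/
import Pool.Agent.H49.PC.Fx
import Pool.Agent.H82.PC.Dg

set_option autoImplicit false

open Finset

namespace Pool.Agent.H49.PC

open Pool.Agent.H82.PC

theorem degBound : DegBound := by
  intro F _ N k S d G B hd hR P hP
  by_contra hcon
  push Not at hcon
  exact degree hP hd (fun t m hm hc => not_lt.1 fun hlt => hcon t m hm hlt hc) hR

theorem main : ∃ C : ℕ, 1 ≤ C ∧ ∀ (s N : ℕ) (p : unitInterval), 1 ≤ s → (C * s) ^ C ≤ N →
    (N : ℝ) ^ (-(1 : ℝ) / (C * s)) ≤ p →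
    (SimpleGraph.binomialRandom (Fin N) p).real
      {G | ∃ (F : Type) (_ : Field F) (k S : ℕ) (P : Fin S → MvPolynomial (Fin k × Fin N) F),
        PCRefutation G k S P ∧ ((monomials P).card < N ^ s ∨ ∀ t, (P t).totalDegree ≤ s)} ≤ 1 / N :=
  main_of degBound

end Pool.Agent.H49.PC
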